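import Mathlib
import Pool.Agent.N299.ND.Stm

/-!
ND/LOC (helper273): localization of triples along the spectrum of a positive contraction.
-/

set_option autoImplicit false

open scoped BoundedContinuousFunction Topology Matrix.Norms.L2Operator
open Filter

noncomputable section

namespace Pool.Agent.N273.ND

open Pool.Agent.N299 Pool.Agent.N299.DT Pool.Agent.N299.ND

namespace LOC

/-! ### the hat functions -/

/-- ramp -/
def rp (u : ℝ) : ℝ := min 1 (max 0 u)

lemma rp_cont : Continuous rp := by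
  unfold rp
  fun_prop

lemma rp_nonneg (u : ℝ) : 0 ≤ rp u := le_min zero_le_one (le_max_left _ _)

lemma rp_le (u : ℝ) : rp u ≤ 1 := min_le_left _ _

lemma rp_zero {u : ℝ} (h : u ≤ 0) : rp u = 0 := by
  rw [rp, max_eq_left h, min_eq_right zero_le_one]

lemma rp_one {u : ℝ} (h : 1 ≤ u) : rp u = 1 := by
  rw [rp, max_eq_right (by linarith), min_eq_left h]

lemma rp_mono {u v : ℝ} (h : u ≤ v) : rp u ≤ rp v :=
  min_le_min le_rfl (max_le_max le_rfl h)

/-- hat functions -/
def hat (N j : ℕ) (t : ℝ) : ℝ := rp (N * t - 1 - j) - rp (N * t - 2 - j)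

lemma hat_cont (N j : ℕ) : Continuous (hat N j) := by
  unfold hat
  exact (rp_cont.comp (by fun_prop)).sub (rp_cont.comp (by fun_prop))

lemma hat_nonneg (N j : ℕ) (t : ℝ) : 0 ≤ hat N j t := by
  unfold hat
  exact sub_nonneg.2 (rp_mono (by linarith))

lemma hat_le (N j : ℕ) (t : ℝ) : hat N j t ≤ 1 := by
  unfold hat
  have := rp_le (N * t - 1 - j)
  have := rp_nonneg (N * t - 2 - j)
  linarith

lemma hat_zero1 {N j : ℕ} {t : ℝ} (h : N * t ≤ 1 + j) : hat N j t = 0 := by
  rw [hat, rp_zero (by linarith), rp_zero (by linarith), sub_zero]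

lemma hat_zero2 {N j : ℕ} {t : ℝ} (h : 3 + j ≤ N * t) : hat N j t = 0 := by
  rw [hat, rp_one (by linarith), rp_one (by linarith), sub_self]

lemma hat_mul (N : ℕ) {j j' : ℕ} (h : j + 2 ≤ j') (t : ℝ) : hat N j t * hat N j' t = 0 := by
  have h' : (j : ℝ) + 2 ≤ j' := by exact_mod_cast h
  rcases le_total ((N : ℝ) * t) (3 + j) with h1 | h1
  · rw [hat_zero1 (N := N) (j := j') (t := t) (by linarith), mul_zero]
  · rw [hat_zero2 h1, zero_mul]

lemma hat_sum (N : ℕ) {t : ℝ} (h1 : t ≤ 1) :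
    ∑ j ∈ Finset.range (2 * N), hat N j t = rp (N * t - 1) := by
  have e : ∀ j ∈ Finset.range (2 * N), hat N j t =
      (fun j : ℕ => rp (N * t - 1 - j)) j - (fun j : ℕ => rp (N * t - 1 - j)) (j + 1) := by
    intro j _
    simp only [hat]
    congr 2
    push_cast
    ring
  rw [Finset.sum_congr rfl e, Finset.sum_range_sub']
  have hz : rp (N * t - 1 - ((2 * N : ℕ) : ℝ)) = 0 := by
    refine rp_zero ?_
    push_cast
    nlinarith [Nat.cast_nonneg (α := ℝ) N]
  rw [hz]
  simp

/-- `t * quo t = hat t` -/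
def quo (N j : ℕ) (t : ℝ) : ℝ := hat N j t / max t (1 / N)

lemma quo_cont {N : ℕ} (hN : 0 < N) (j : ℕ) : Continuous (quo N j) := by
  unfold quo
  refine (hat_cont N j).div (by fun_prop) fun t => ?_
  have : (0 : ℝ) < 1 / N := by positivity
  exact (lt_max_of_lt_right this).ne'

lemma mul_quo {N : ℕ} (hN : 0 < N) (j : ℕ) {t : ℝ} (_ : 0 ≤ t) : t * quo N j t = hat N j t := by
  have hN' : (0 : ℝ) < N := by exact_mod_cast hN
  rcases le_total ((1 : ℝ) / N) t with h | h
  · have h0 : 0 < t := lt_of_lt_of_le (by positivity) h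
    rw [quo, max_eq_left h]
    field_simp
  · have h1 : hat N j t = 0 := by
      refine hat_zero1 ?_
      rw [le_div_iff₀ hN'] at h
      have : (0 : ℝ) ≤ j := Nat.cast_nonneg j
      linarith
    rw [quo, h1, zero_div, mul_zero]

/-- equal to `1` on the support of `hat` -/
def kk (N j : ℕ) (t : ℝ) : ℝ := rp (N * t - j) - rp (N * t - 3 - j)

lemma kk_cont (N j : ℕ) : Continuous (kk N j) := by
  unfold kk
  exact (rp_cont.comp (by fun_prop)).sub (rp_cont.comp (by fun_prop))

lemma kk_nonneg (N j : ℕ) (t : ℝ) : 0 ≤ kk N j t := by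
  unfold kk
  exact sub_nonneg.2 (rp_mono (by linarith))

lemma kk_le (N j : ℕ) (t : ℝ) : kk N j t ≤ 1 := by
  unfold kk
  have := rp_le (N * t - j)
  have := rp_nonneg (N * t - 3 - j)
  linarith

lemma kk_hat (N j : ℕ) (t : ℝ) : kk N j t * hat N j t = hat N j t := by
  rcases le_total ((N : ℝ) * t) (1 + j) with h1 | h1
  · rw [hat_zero1 h1, mul_zero]
  · rcases le_total (3 + (j : ℝ)) ((N : ℝ) * t) with h2 | h2
    · rw [hat_zero2 h2, mul_zero]
    · rw [kk, rp_one (by linarith), rp_zero (by linarith), sub_zero, one_mul]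

lemma kk_bd {N : ℕ} (hN : 0 < N) (j : ℕ) (t : ℝ) :
    ‖(t - (2 + j) / N) * kk N j t‖ ≤ 2 / N := by
  have hN' : (0 : ℝ) < N := by exact_mod_cast hN
  rcases le_total ((N : ℝ) * t) j with h1 | h1
  · rw [kk, rp_zero (by linarith), rp_zero (by linarith), sub_zero, mul_zero, norm_zero]
    positivity
  · rcases le_total (4 + (j : ℝ)) ((N : ℝ) * t) with h2 | h2
    · rw [kk, rp_one (by linarith), rp_one (by linarith), sub_self, mul_zero, norm_zero]
      positivity
    · rw [norm_mul, Real.norm_eq_abs, Real.norm_eq_abs, abs_of_nonneg (kk_nonneg N j t)]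
      have h3 : |t - (2 + j) / N| ≤ 2 / N := by
        have e : t - (2 + j) / N = (N * t - (2 + j)) / N := by field_simp
        rw [e, abs_div, abs_of_pos hN']
        gcongr
        rw [abs_le]
        constructor <;> linarith
      calc |t - (2 + j) / N| * kk N j t ≤ 2 / N * 1 := by
            exact mul_le_mul h3 (kk_le N j t) (kk_nonneg N j t) (by positivity)
        _ = 2 / N := mul_one _

lemma sum_two (N : ℕ) {E : Type} [AddCommMonoid E] (F : ℕ → E) :
    ∑ j ∈ Finset.range (2 * N), F j =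
      ∑ i ∈ Finset.range N, F (2 * i) + ∑ i ∈ Finset.range N, F (2 * i + 1) := by
  induction N with
  | zero => simp
  | succ N ih =>
    rw [show 2 * (N + 1) = 2 * N + 1 + 1 from rfl, Finset.sum_range_succ, Finset.sum_range_succ,
      ih, Finset.sum_range_succ, Finset.sum_range_succ]
    abel

/-! ### orthogonal sums -/

section

variable {B : Type} [CStarAlgebra B]

/-- norm of an orthogonal sum -/
lemma norm_sum_le' {ι : Type} (s : Finset ι) (w : ι → B) {r : ℝ} (hr : 0 ≤ r)
    (h1 : ∀ i ∈ s, ∀ j ∈ s, i ≠ j → star (w i) * w j = 0)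
    (h2 : ∀ i ∈ s, ∀ j ∈ s, i ≠ j → w i * star (w j) = 0)
    (hw : ∀ i ∈ s, ‖w i‖ ≤ r) : ‖∑ i ∈ s, w i‖ ≤ r := by
  let _ : PartialOrder B := CStarAlgebra.spectralOrder B
  let _ : StarOrderedRing B := CStarAlgebra.spectralOrderedRing B
  set W := ∑ i ∈ s, w i with hW
  have hP : star W * W = ∑ i ∈ s, star (w i) * w i := by
    rw [hW, star_sum, Finset.sum_mul_sum]
    refine Finset.sum_congr rfl fun i hi => ?_
    rw [Finset.sum_eq_single i]
    · intro j hj hne
      exact h1 i hi j hj hne.symm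
    · intro h
      exact absurd hi h
  have hP2 : (star W * W) * (star W * W) =
      ∑ i ∈ s, star (w i) * (w i * star (w i)) * w i := by
    rw [hP, Finset.sum_mul_sum]
    refine Finset.sum_congr rfl fun i hi => ?_
    rw [Finset.sum_eq_single i]
    · simp only [mul_assoc]
    · intro j hj hne
      have h3 := h2 i hi j hj hne.symm
      calc star (w i) * w i * (star (w j) * w j) = star (w i) * (w i * star (w j)) * w j := by
            simp only [mul_assoc]
        _ = 0 := by rw [h3, mul_zero, zero_mul]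
    · intro h
      exact absurd hi h
  have hle : (star W * W) * (star W * W) ≤ (r ^ 2) • (star W * W) := by
    rw [hP2, hP, Finset.smul_sum]
    refine Finset.sum_le_sum fun i hi => ?_
    have h4 : star (w i) * (w i * star (w i)) * w i ≤
        ‖w i * star (w i)‖ • (star (w i) * w i) :=
      CStarAlgebra.star_left_conjugate_le_norm_smul (IsSelfAdjoint.mul_star_self (w i))
    refine h4.trans ?_
    refine smul_le_smul_of_nonneg_right ?_ (star_mul_self_nonneg _)
    rw [CStarRing.norm_self_mul_star]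
    have := hw i hi
    nlinarith [norm_nonneg (w i)]
  have h0 : (0 : B) ≤ (star W * W) * (star W * W) := by
    have h5 := star_mul_self_nonneg (star W * W)
    rwa [star_mul, star_star] at h5
  have h6 := CStarAlgebra.norm_le_norm_of_nonneg_of_le h0 hle
  have h7 : ‖(star W * W) * (star W * W)‖ = ‖star W * W‖ * ‖star W * W‖ := by
    have h8 := CStarRing.norm_star_mul_self (x := star W * W)
    rwa [star_mul, star_star] at h8
  rw [h7, norm_smul, CStarRing.norm_star_mul_self, Real.norm_eq_abs, abs_of_nonneg (by positivity)]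
    at h6
  by_contra hcon
  push Not at hcon
  have h9 : 0 < ‖W‖ := lt_of_le_of_lt hr hcon
  have h10 : 0 < ‖W‖ * ‖W‖ := by positivity
  have h11 : ‖W‖ * ‖W‖ ≤ r ^ 2 := by
    by_contra hc
    push Not at hc
    nlinarith
  nlinarith

/-- `w` is supported by `a` on both sides -/
def SU (a w : B) : Prop := (∃ u, w = a * u) ∧ ∃ v, w = v * a

lemma SU.self (a : B) : SU a a := ⟨⟨1, (mul_one a).symm⟩, ⟨1, (one_mul a).symm⟩⟩

lemma SU.mul {a w w' : B} (h : SU a w) (h' : SU a w') : SU a (w * w') := by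
  obtain ⟨⟨u, hu⟩, -⟩ := h
  obtain ⟨-, ⟨v, hv⟩⟩ := h'
  exact ⟨⟨u * w', by rw [hu, mul_assoc]⟩, ⟨w * v, by rw [hv, mul_assoc]⟩⟩

lemma SU.sub {a w w' : B} (h : SU a w) (h' : SU a w') : SU a (w - w') := by
  obtain ⟨⟨u, hu⟩, ⟨v, hv⟩⟩ := h
  obtain ⟨⟨u', hu'⟩, ⟨v', hv'⟩⟩ := h'
  exact ⟨⟨u - u', by rw [hu, hu', mul_sub]⟩, ⟨v - v', by rw [hv, hv', sub_mul]⟩⟩

lemma SU.sum {a : B} {ι : Type} (s : Finset ι) (w : ι → B) (h : ∀ i ∈ s, SU a (w i)) :
    SU a (∑ i ∈ s, w i) := by
  classical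
  have h1 : ∀ i ∈ s, ∃ u, w i = a * u := fun i hi => (h i hi).1
  have h2 : ∀ i ∈ s, ∃ v, w i = v * a := fun i hi => (h i hi).2
  choose! u hu using h1
  choose! v hv using h2
  exact ⟨⟨∑ i ∈ s, u i, by rw [Finset.mul_sum]; exact Finset.sum_congr rfl hu⟩,
    ⟨∑ i ∈ s, v i, by rw [Finset.sum_mul]; exact Finset.sum_congr rfl hv⟩⟩

lemma SU.comm {a c w : B} (h : SU a w) (hc : c * a = a * c) : SU a (c * w - w * c) := by
  obtain ⟨⟨u, hu⟩, ⟨v, hv⟩⟩ := h
  refine ⟨⟨c * u - u * c, ?_⟩, ⟨c * v - v * c, ?_⟩⟩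
  · rw [hu, mul_sub, ← mul_assoc, hc]
    simp only [mul_assoc]
  · rw [hv, sub_mul, mul_assoc v a c, ← hc]
    simp only [mul_assoc]

lemma SU.orth {a a' w w' : B} (h : SU a w) (h' : SU a' w') (haa : a * a' = 0) : w * w' = 0 := by
  obtain ⟨-, ⟨v, hv⟩⟩ := h
  obtain ⟨⟨u, hu⟩, -⟩ := h'
  rw [hv, hu, mul_assoc, ← mul_assoc a a' u, haa, zero_mul, mul_zero]

lemma SU.star {a w : B} (h : SU a w) (ha : star a = a) : SU a (star w) := by
  obtain ⟨⟨u, hu⟩, ⟨v, hv⟩⟩ := h
  exact ⟨⟨Star.star v, by rw [hv, star_mul, ha]⟩, ⟨Star.star u, by rw [hu, star_mul, ha]⟩⟩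

lemma norm_sum_le {ι : Type} (s : Finset ι) (a w : ι → B) {r : ℝ} (hr : 0 ≤ r)
    (ha : ∀ i, star (a i) = a i) (h1 : ∀ i ∈ s, ∀ j ∈ s, i ≠ j → a i * a j = 0)
    (h2 : ∀ i, SU (a i) (w i)) (hw : ∀ i, ‖w i‖ ≤ r) : ‖∑ i ∈ s, w i‖ ≤ r :=
  norm_sum_le' s w hr (fun i hi j hj hij => ((h2 i).star (ha i)).orth (h2 j) (h1 i hi j hj hij))
    (fun i hi j hj hij => (h2 i).orth ((h2 j).star (ha j)) (h1 i hi j hj hij)) (fun i _ => hw i)

lemma sum_mul_orth {ι : Type} (s : Finset ι) (a w w' : ι → B)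
    (h1 : ∀ i ∈ s, ∀ j ∈ s, i ≠ j → a i * a j = 0)
    (h2 : ∀ i, SU (a i) (w i)) (h3 : ∀ i, SU (a i) (w' i)) :
    (∑ i ∈ s, w i) * (∑ i ∈ s, w' i) = ∑ i ∈ s, w i * w' i := by
  rw [Finset.sum_mul_sum]
  refine Finset.sum_congr rfl fun i hi => ?_
  rw [Finset.sum_eq_single i]
  · intro j hj hne
    exact (h2 i).orth (h3 j) (h1 i hi j hj hne.symm)
  · intro h
    exact absurd hi h

lemma spec {a : B} (ha : Pos a) (han : ‖a‖ ≤ 1) : ∀ t ∈ spectrum ℝ a, 0 ≤ t ∧ t ≤ 1 := by
  let _ : PartialOrder B := CStarAlgebra.spectralOrder B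
  let _ : StarOrderedRing B := CStarAlgebra.spectralOrderedRing B
  intro t ht
  have hsa : IsSelfAdjoint a := ha.sa
  refine ⟨spectrum_nonneg_of_nonneg ((pos_iff a).1 ha) ht, ?_⟩
  have h1 : a ≤ algebraMap ℝ B ‖a‖ := IsSelfAdjoint.le_algebraMap_norm_self hsa
  exact ((le_algebraMap_iff_spectrum_le hsa).1 h1 t ht).trans han

lemma cfc_pos {a : B} {f : ℝ → ℝ} (h : ∀ t ∈ spectrum ℝ a, 0 ≤ f t) : Pos (cfc f a) := by
  let _ : PartialOrder B := CStarAlgebra.spectralOrder B
  let _ : StarOrderedRing B := CStarAlgebra.spectralOrderedRing B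
  rw [pos_iff]
  exact cfc_nonneg h

end

end LOC

open LOC in
theorem t_LOC : S_LOC := by
  intro B _ I n hI hU a haI ha han ε hε
  obtain ⟨N, hN⟩ := exists_nat_ge (4 / ε)
  have hN0' : (0 : ℝ) < N := lt_of_lt_of_le (by positivity) hN
  have hN0 : 0 < N := by exact_mod_cast hN0'
  have hNe : 4 / (N : ℝ) ≤ ε := by
    rw [div_le_iff₀ hε] at hN
    rw [div_le_iff₀ hN0']
    linarith
  have hsa : IsSelfAdjoint a := ha.sa
  have hsp := spec ha han
  have hid : cfc (fun t : ℝ => t) a = a := cfc_id' ℝ a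
  let A : ℕ → B := fun j => cfc (hat N j) a
  let C : ℕ → B := fun j => cfc (quo N j) a
  let K : ℕ → B := fun j => cfc (kk N j) a
  have hAsa : ∀ j, star (A j) = A j := fun j => cfc_sa _ _
  have hAC : ∀ j, a * C j = A j := by
    intro j
    have e : cfc (fun t : ℝ => t) a * cfc (quo N j) a = cfc (hat N j) a := by
      rw [← cfc_mul (R := ℝ) _ _ a (by fun_prop) (quo_cont hN0 j).continuousOn]
      exact cfc_congr fun t ht => mul_quo hN0 j (hsp t ht).1
    rwa [hid] at e
  have hCA : ∀ j, C j * a = A j := by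
    intro j
    have e : cfc (quo N j) a * cfc (fun t : ℝ => t) a = cfc (hat N j) a := by
      rw [← cfc_mul (R := ℝ) _ _ a (quo_cont hN0 j).continuousOn (by fun_prop)]
      exact cfc_congr fun t ht => by
        show quo N j t * t = hat N j t
        rw [mul_comm]
        exact mul_quo hN0 j (hsp t ht).1
    rwa [hid] at e
  have hAI : ∀ j, A j ∈ I := fun j => by
    rw [← hAC j]
    exact hI.mulR a haI _
  have hApos : ∀ j, Pos (A j) := fun j => cfc_pos fun t _ => hat_nonneg N j t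
  have hAn : ∀ j, ‖A j‖ ≤ 1 := fun j => norm_cfc_le zero_le_one fun t _ => by
    rw [Real.norm_eq_abs, abs_of_nonneg (hat_nonneg N j t)]
    exact hat_le N j t
  have hAA : ∀ j j', j + 2 ≤ j' ∨ j' + 2 ≤ j → A j * A j' = 0 := by
    intro j j' h
    show cfc (hat N j) a * cfc (hat N j') a = 0
    rw [← cfc_mul (R := ℝ) _ _ a (hat_cont N j).continuousOn (hat_cont N j').continuousOn,
      ← cfc_zero ℝ a]
    refine cfc_congr fun t _ => ?_
    rcases h with h | h
    · exact hat_mul N h t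
    · show hat N j t * hat N j' t = 0
      rw [mul_comm]
      exact hat_mul N h t
  have hcom : ∀ j, a * A j = A j * a := by
    intro j
    rw [← hCA j, ← mul_assoc, hAC, hCA]
  have hKA : ∀ j, K j * A j = A j := by
    intro j
    show cfc (kk N j) a * cfc (hat N j) a = cfc (hat N j) a
    rw [← cfc_mul (R := ℝ) _ _ a (kk_cont N j).continuousOn (hat_cont N j).continuousOn]
    exact cfc_congr fun t _ => kk_hat N j t
  have hAK : ∀ j, A j * K j = A j := by
    intro j
    show cfc (hat N j) a * cfc (kk N j) a = cfc (hat N j) a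
    rw [← cfc_mul (R := ℝ) _ _ a (hat_cont N j).continuousOn (kk_cont N j).continuousOn]
    refine cfc_congr fun t _ => ?_
    show hat N j t * kk N j t = hat N j t
    rw [mul_comm]
    exact kk_hat N j t
  let L : ℕ → B := fun j => cfc (fun t : ℝ => t - (2 + j) / N) a
  have hL : ∀ j w, a * w - w * a = L j * w - w * L j := by
    intro j w
    have e : L j = a - algebraMap ℝ B ((2 + j) / N) := by
      show cfc (fun t : ℝ => t - (2 + j) / N) a = _
      rw [cfc_sub (R := ℝ) (fun t => t) (fun _ => (2 + (j : ℝ)) / N) a (by fun_prop) (by fun_prop),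
        hid, cfc_const _ a]
    rw [e, sub_mul, mul_sub, Algebra.commutes]
    abel
  have hLK : ∀ j, ‖L j * K j‖ ≤ 2 / N := by
    intro j
    show ‖cfc (fun t : ℝ => t - (2 + j) / N) a * cfc (kk N j) a‖ ≤ 2 / N
    rw [← cfc_mul (R := ℝ) _ _ a (by fun_prop) (kk_cont N j).continuousOn]
    exact norm_cfc_le (by positivity) fun t _ => kk_bd hN0 j t
  have hKL : ∀ j, ‖K j * L j‖ ≤ 2 / N := by
    intro j
    show ‖cfc (kk N j) a * cfc (fun t : ℝ => t - (2 + j) / N) a‖ ≤ 2 / N
    rw [← cfc_mul (R := ℝ) _ _ a (kk_cont N j).continuousOn (by fun_prop)]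
    refine norm_cfc_le (by positivity) fun t _ => ?_
    rw [mul_comm]
    exact kk_bd hN0 j t
  have hbd : ∀ j w, SU (A j) w → ‖w‖ ≤ 1 → ‖a * w - w * a‖ ≤ ε := by
    intro j w hw hw1
    obtain ⟨⟨u, hu⟩, ⟨v, hv⟩⟩ := hw
    have e1 : K j * w = w := by rw [hu, ← mul_assoc, hKA]
    have e2 : w * K j = w := by rw [hv, mul_assoc, hAK]
    have e3 : L j * w = L j * K j * w := by rw [mul_assoc, e1]
    have e4 : w * L j = w * (K j * L j) := by rw [← mul_assoc, e2]
    rw [hL j, e3, e4]
    refine (norm_sub_le _ _).trans ?_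
    have h1 : ‖L j * K j * w‖ ≤ 2 / N := by
      refine (norm_mul_le _ _).trans ?_
      calc ‖L j * K j‖ * ‖w‖ ≤ 2 / N * 1 := by
            exact mul_le_mul (hLK j) hw1 (norm_nonneg _) (by positivity)
        _ = 2 / N := mul_one _
    have h2 : ‖w * (K j * L j)‖ ≤ 2 / N := by
      refine (norm_mul_le _ _).trans ?_
      calc ‖w‖ * ‖K j * L j‖ ≤ 1 * (2 / N) := by
            exact mul_le_mul hw1 (hKL j) (norm_nonneg _) zero_le_one
        _ = 2 / N := one_mul _
    calc ‖L j * K j * w‖ + ‖w * (K j * L j)‖ ≤ 2 / N + 2 / N := add_le_add h1 h2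
      _ = 4 / N := by ring
      _ ≤ ε := hNe
  choose x z y hT hS using fun j => hU (A j) (hAI j) (hApos j) (hAn j) (ε / 4) (by positivity)
  have hSx : ∀ j s, SU (A j) (x j s) := by
    intro j s
    obtain ⟨b, hb⟩ := (hT j).fx s
    exact ⟨⟨b * A j, by rw [hb, mul_assoc]⟩, ⟨A j * b, hb⟩⟩
  have hSz : ∀ j s, SU (A j) (z j s) := by
    intro j s
    obtain ⟨b, hb⟩ := (hT j).fz s
    exact ⟨⟨b * A j, by rw [hb, mul_assoc]⟩, ⟨A j * b, hb⟩⟩
  have hSy : ∀ j s, SU (A j) (y j s) := by
    intro j s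
    obtain ⟨b, hb⟩ := (hT j).fy s
    exact ⟨⟨b * A j, by rw [hb, mul_assoc]⟩, ⟨A j * b, hb⟩⟩
  -- parity classes
  have hor : ∀ q : Fin 2, ∀ i ∈ Finset.range N, ∀ i' ∈ Finset.range N, i ≠ i' →
      A (2 * i + q) * A (2 * i' + q) = 0 := by
    intro q i _ i' _ hii
    refine hAA _ _ ?_
    rcases Nat.lt_or_gt_of_ne hii with h | h
    · left; omega
    · right; omega
  have key : ∀ (w : ℕ → B) (r : ℝ), 0 ≤ r → (∀ j, SU (A j) (w j)) → (∀ j, ‖w j‖ ≤ r) →
      ∀ q : Fin 2, ‖∑ i ∈ Finset.range N, w (2 * i + q)‖ ≤ r := by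
    intro w r hr hw hwr q
    exact norm_sum_le (Finset.range N) (fun i => A (2 * i + q)) (fun i => w (2 * i + q)) hr
      (fun i => hAsa _) (hor q) (fun i => hw _) (fun i => hwr _)
  have keym : ∀ (w w' : ℕ → B), (∀ j, SU (A j) (w j)) → (∀ j, SU (A j) (w' j)) → ∀ q : Fin 2,
      (∑ i ∈ Finset.range N, w (2 * i + q)) * (∑ i ∈ Finset.range N, w' (2 * i + q)) =
      ∑ i ∈ Finset.range N, w (2 * i + q) * w' (2 * i + q) := by
    intro w w' hw hw' q
    exact sum_mul_orth (Finset.range N) (fun i => A (2 * i + q)) (fun i => w (2 * i + q))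
      (fun i => w' (2 * i + q)) (hor q) (fun i => hw _) (fun i => hw' _)
  have keyc : ∀ (w : ℕ → B), (∀ j, SU (A j) (w j)) → (∀ j, ‖w j‖ ≤ 1) →
      ∀ q : Fin 2, ‖a * (∑ i ∈ Finset.range N, w (2 * i + q)) -
        (∑ i ∈ Finset.range N, w (2 * i + q)) * a‖ ≤ ε := by
    intro w hw hw1 q
    rw [Finset.mul_sum, Finset.sum_mul, ← Finset.sum_sub_distrib]
    exact key (fun j => a * w j - w j * a) ε hε.le (fun j => (hw j).comm (hcom j))
      (fun j => hbd j (w j) (hw j) (hw1 j)) q
  have keyf : ∀ (w : ℕ → B), (∀ j, ∃ b, w j = A j * b * A j) →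
      ∀ q : Fin 2, ∃ b, ∑ i ∈ Finset.range N, w (2 * i + q) = a * b * a := by
    intro w hw q
    choose b hb using hw
    refine ⟨∑ i ∈ Finset.range N, C (2 * i + q) * b (2 * i + q) * C (2 * i + q), ?_⟩
    rw [Finset.mul_sum, Finset.sum_mul]
    refine Finset.sum_congr rfl fun i _ => ?_
    rw [hb]
    nth_rewrite 1 [← hAC]
    rw [← hCA]
    simp only [mul_assoc]
  let X : Fin (2 * n) → B := fun s =>
    ∑ i ∈ Finset.range N, x (2 * i + (finProdFinEquiv.symm s).1) (finProdFinEquiv.symm s).2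
  let Z : Fin (2 * n) → B := fun s =>
    ∑ i ∈ Finset.range N, z (2 * i + (finProdFinEquiv.symm s).1) (finProdFinEquiv.symm s).2
  let Y : Fin (2 * n) → B := fun s =>
    ∑ i ∈ Finset.range N, y (2 * i + (finProdFinEquiv.symm s).1) (finProdFinEquiv.symm s).2
  have hε4 : ε / 4 ≤ ε := by linarith
  refine ⟨X, Z, Y, ⟨?_, ?_, ?_, ?_, ?_, ?_, ?_⟩, ?_, ?_⟩
  · intro s
    exact key (fun j => x j (finProdFinEquiv.symm s).2) 1 zero_le_one (fun j => hSx j _)
      (fun j => (hT j).nx _) _
  · intro s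
    exact key (fun j => z j (finProdFinEquiv.symm s).2) 1 zero_le_one (fun j => hSz j _)
      (fun j => (hT j).nz _) _
  · intro s
    exact key (fun j => y j (finProdFinEquiv.symm s).2) 1 zero_le_one (fun j => hSy j _)
      (fun j => (hT j).ny _) _
  · intro s
    have e := keym (fun j => z j (finProdFinEquiv.symm s).2) (fun j => z j (finProdFinEquiv.symm s).2)
      (fun j => hSz j _) (fun j => hSz j _) (finProdFinEquiv.symm s).1
    have e' := key (fun j => z j (finProdFinEquiv.symm s).2 * z j (finProdFinEquiv.symm s).2) (ε / 4)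
      (by positivity) (fun j => (hSz j _).mul (hSz j _)) (fun j => (hT j).sq _)
      (finProdFinEquiv.symm s).1
    rw [← e] at e'
    exact e'.trans hε4
  · intro s
    exact keyf (fun j => x j (finProdFinEquiv.symm s).2) (fun j => (hT j).fx _) _
  · intro s
    exact keyf (fun j => z j (finProdFinEquiv.symm s).2) (fun j => (hT j).fz _) _
  · intro s
    exact keyf (fun j => y j (finProdFinEquiv.symm s).2) (fun j => (hT j).fy _) _
  · -- the approximation
    have e1 : ∑ s, X s * Z s * Y s = ∑ q : Fin 2, ∑ i ∈ Finset.range N,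
        ∑ s : Fin n, x (2 * i + q) s * z (2 * i + q) s * y (2 * i + q) s := by
      rw [← Equiv.sum_comp finProdFinEquiv, Fintype.sum_prod_type]
      refine Finset.sum_congr rfl fun q _ => ?_
      rw [Finset.sum_comm]
      refine Finset.sum_congr rfl fun s _ => ?_
      simp only [X, Z, Y, Equiv.symm_apply_apply]
      rw [keym (fun j => x j s) (fun j => z j s) (fun j => hSx j _) (fun j => hSz j _) q,
        keym (fun j => x j s * z j s) (fun j => y j s) (fun j => (hSx j _).mul (hSz j _))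
          (fun j => hSy j _) q]
    have e2 : cfc (fun t : ℝ => rp (N * t - 1)) a = ∑ q : Fin 2, ∑ i ∈ Finset.range N,
        A (2 * i + q) := by
      rw [Fin.sum_univ_two]
      have e3 := sum_two N A
      have e4 : ∑ j ∈ Finset.range (2 * N), A j = cfc (fun t : ℝ => rp (N * t - 1)) a := by
        have e5 : cfc (fun t : ℝ => rp (N * t - 1)) a =
            cfc (∑ j ∈ Finset.range (2 * N), hat N j) a := by
          refine cfc_congr fun t ht => ?_
          rw [Finset.sum_apply]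
          exact (hat_sum N (hsp t ht).2).symm
        rw [e5, cfc_sum (R := ℝ) (hat N) a (Finset.range (2 * N))
          (fun j _ => (hat_cont N j).continuousOn)]
      rw [← e4, e3]
      rfl
    have e6 : ‖cfc (fun t : ℝ => rp (N * t - 1)) a - ∑ s, X s * Z s * Y s‖ ≤ ε / 4 + ε / 4 := by
      rw [e1, e2, ← Finset.sum_sub_distrib]
      simp only [← Finset.sum_sub_distrib]
      rw [Fin.sum_univ_two]
      have hk := key (fun j => A j - ∑ s, x j s * z j s * y j s) (ε / 4) (by positivity)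
        (fun j => (SU.self (A j)).sub (SU.sum _ _ fun s _ =>
          ((hSx j s).mul (hSz j s)).mul (hSy j s))) (fun j => hS j)
      exact (norm_add_le _ _).trans (add_le_add (hk 0) (hk 1))
    have e7 : ‖a - cfc (fun t : ℝ => rp (N * t - 1)) a * a‖ ≤ 2 / N := by
      have e8 : a - cfc (fun t : ℝ => rp (N * t - 1)) a * a =
          cfc (fun t : ℝ => t - rp (N * t - 1) * t) a := by
        have hc : Continuous fun t : ℝ => rp (N * t - 1) := rp_cont.comp (by fun_prop)
        rw [cfc_sub (R := ℝ) (fun t => t) (fun t => rp (N * t - 1) * t) a (by fun_prop)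
          (hc.mul continuous_id).continuousOn,
          cfc_mul (R := ℝ) (fun t => rp (N * t - 1)) (fun t => t) a hc.continuousOn (by fun_prop),
          hid]
      rw [e8]
      refine norm_cfc_le (by positivity) fun t ht => ?_
      obtain ⟨h0, h1⟩ := hsp t ht
      have hr0 := rp_nonneg (N * t - 1)
      have hr1 := rp_le (N * t - 1)
      have e9 : t - rp (N * t - 1) * t = (1 - rp (N * t - 1)) * t := by ring
      rw [e9, Real.norm_eq_abs, abs_of_nonneg (mul_nonneg (by linarith) h0)]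
      rcases le_total ((N : ℝ) * t) 2 with h2 | h2
      · have h3 : t ≤ 2 / N := by
          rw [le_div_iff₀ hN0']
          linarith
        calc (1 - rp (N * t - 1)) * t ≤ 1 * t := by
              exact mul_le_mul_of_nonneg_right (by linarith) h0
          _ = t := one_mul t
          _ ≤ 2 / N := h3
      · rw [rp_one (by linarith), sub_self, zero_mul]
        positivity
    have e10 : a - (∑ s, X s * Z s * Y s) * a =
        (a - cfc (fun t : ℝ => rp (N * t - 1)) a * a) +
        (cfc (fun t : ℝ => rp (N * t - 1)) a - ∑ s, X s * Z s * Y s) * a := by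
      rw [sub_mul]
      abel
    rw [e10]
    refine (norm_add_le _ _).trans ?_
    have e11 : ‖(cfc (fun t : ℝ => rp (N * t - 1)) a - ∑ s, X s * Z s * Y s) * a‖ ≤
        (ε / 4 + ε / 4) * 1 :=
      (norm_mul_le _ _).trans (mul_le_mul e6 han (norm_nonneg _) (by positivity))
    have e12 : 2 / (N : ℝ) ≤ ε / 2 := by
      have : 2 / (N : ℝ) = 4 / N / 2 := by ring
      rw [this]
      linarith
    linarith
  · intro s
    exact ⟨keyc (fun j => x j (finProdFinEquiv.symm s).2) (fun j => hSx j _)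
      (fun j => (hT j).nx _) _,
      keyc (fun j => z j (finProdFinEquiv.symm s).2) (fun j => hSz j _)
      (fun j => (hT j).nz _) _,
      keyc (fun j => y j (finProdFinEquiv.symm s).2) (fun j => hSy j _)
      (fun j => (hT j).ny _) _⟩

end Pool.Agent.N273.ND
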